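import Pool.Agent.X55.SMM.Bridge

/-!
# MP_f8b95a_co, Q1: which transversal matroids are strict matching matroids

A transversal matroid `M` is isomorphic to `match(G)` for some graph `G` if and only if its rank is
even and at most twice the number of its coloops plus `∑ ⌊(|P| - 1) / 2⌋`, the sum being over the
series classes `P` of `M`.
-/

set_option autoImplicit false

namespace Pool.Agent.Results.MP_f8b95a_co.Criterion

/-- `X` is covered by a matching of `G`. -/
def Covered {V : Type} (G : SimpleGraph V) (X : Set V) : Prop :=
  ∃ W : G.Subgraph, W.IsMatching ∧ X ⊆ W.verts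

/-- `M`, with ground set `α`, is isomorphic to `match(G)` for some graph `G`: a bijection from the
vertex set of `G` to `α` carries the sets covered by a matching to the independent sets. -/
def IsStrictMatching {α : Type} (M : Matroid α) : Prop :=
  ∃ (V : Type) (G : SimpleGraph V) (f : V ≃ α), ∀ X : Set V, M.Indep (f '' X) ↔ Covered G X

/-- `M` is transversal: its independent sets are the partial transversals of a finite family. -/
def IsTransversal {α : Type} (M : Matroid α) : Prop :=
  ∃ (m : ℕ) (A : Fin m → Set α), ∀ X : Set α,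
    M.Indep X ↔ ∃ g : X → Fin m, Function.Injective g ∧ ∀ x : X, (x : α) ∈ A (g x)

/-- The coloops: the elements which lie in every base. -/
def coloops {α : Type} (M : Matroid α) : Set α := {e | ∀ B, M.IsBase B → e ∈ B}

/-- The series class of `e`: the elements `f`, not coloops, with `f = e` or such that every base
contains `e` or `f`. -/
def seriesClass {α : Type} (M : Matroid α) (e : α) : Set α :=
  {f | f ∉ coloops M ∧ (f = e ∨ ∀ B, M.IsBase B → e ∈ B ∨ f ∈ B)}

/-- The series classes of the elements which are not coloops. -/
def seriesClasses {α : Type} (M : Matroid α) : Set (Set α) :=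
  {P | ∃ e, e ∉ coloops M ∧ P = seriesClass M e}

/-- **The strict matching matroids among the transversal matroids.** Let `M` be a transversal
matroid on a finite set `α`, and `B` a base of `M`. Then `M` is isomorphic to `match(G)` for some
graph `G` if and only if `|B|` is even and `|B| ≤ 2 (c + ∑ ⌊(|P| - 1) / 2⌋)`, where `c` is the
number of the coloops of `M` and `P` runs through the series classes of `M`. -/
theorem result (α : Type) [Finite α] (M : Matroid α) (_hE : M.E = Set.univ)
    (hM : IsTransversal M) (B : Set α) (hB : M.IsBase B) :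
    IsStrictMatching M ↔ Even B.ncard ∧
      B.ncard ≤ 2 * ((coloops M).ncard + ∑ᶠ P ∈ seriesClasses M, (P.ncard - 1) / 2) := by
  classical
  have : Fintype α := Fintype.ofFinite α
  obtain ⟨m, R, hR⟩ := Pool.Agent.X55.SMM.transversal_mt (M := M) hM
  have e1 : ((B.toFinset : Finset α) : Set α) = B := by simp
  have hB' : Pool.Agent.X55.SMM.Base (Pool.Agent.X55.SMM.ind M) B.toFinset := by
    rw [Pool.Agent.X55.SMM.base_iff, e1]
    exact hB
  have h1 := Pool.Agent.X55.SMM.criterion (Pool.Agent.X55.SMM.isMat M) hR hB'
  have h2 : IsStrictMatching M ↔ Pool.Agent.X55.SMM.IsStrictMatching M := Iff.rfl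
  have h3 : ∑ᶠ P ∈ seriesClasses M, (P.ncard - 1) / 2 =
      ∑ P ∈ Pool.Agent.X55.SMM.classes (Pool.Agent.X55.SMM.ind M), (P.card - 1) / 2 :=
    Pool.Agent.X55.SMM.sum_eq M
  have h4 : (coloops M).ncard = (Pool.Agent.X55.SMM.L (Pool.Agent.X55.SMM.ind M)).card := by
    have h5 : coloops M = (Pool.Agent.X55.SMM.L (Pool.Agent.X55.SMM.ind M) : Set α) :=
      Pool.Agent.X55.SMM.coloops_eq M
    rw [h5, Set.ncard_coe_finset]
  have h6 : B.ncard = B.toFinset.card := by
    conv_lhs => rw [← e1]
    rw [Set.ncard_coe_finset]
  rw [h2, Pool.Agent.X55.SMM.strict_iff, h1, h3, h4, h6]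

end Pool.Agent.Results.MP_f8b95a_co.Criterion
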